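import Pool.Agent.H18.VP.Targets

/-!
# Places at which given elements are units (PLC)
-/

open MvPolynomial
open Pool.Agent.H18.HIT Pool.Agent.H18.HX Pool.Agent.H18.VP

namespace Pool.Agent.H63.VP

/-! ### Algebraically independent elements of the ring of `p`-adic integers -/

open Cardinal in
/-- the ring of `p`-adic integers has the cardinality of the continuum -/
theorem aleph0_lt_padicInt (p : ℕ) [Fact p.Prime] : ℵ₀ < #ℤ_[p] := by
  refine Cardinal.aleph0_lt_continuum.trans_le ?_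
  refine (continuum_le_cardinal_of_nontriviallyNormedField ℚ_[p]).trans ?_
  exact IsLocalization.cardinalMk_le (nonZeroDivisors ℤ_[p])

open Cardinal in
/-- finitely many algebraically independent `p`-adic integers -/
theorem exists_indep (p : ℕ) [Fact p.Prime] (ι : Type) [Finite ι] :
    ∃ z : ι → ℤ_[p], AlgebraicIndependent ℤ z := by
  obtain ⟨κ, x, hx⟩ := exists_isTranscendenceBasis' ℤ ℤ_[p]
  have hinf : Infinite κ := by
    by_contra h
    rw [not_infinite_iff_finite] at h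
    have halg := hx.isAlgebraic
    have h1 := Algebra.IsAlgebraic.cardinalMk_le_max (Algebra.adjoin ℤ (Set.range x)) ℤ_[p]
    have h2 : #(Algebra.adjoin ℤ (Set.range x)) = #(MvPolynomial κ ℤ) :=
      Cardinal.mk_congr hx.1.aevalEquiv.symm.toEquiv
    have h3 : #(MvPolynomial κ ℤ) ≤ ℵ₀ := by
      refine MvPolynomial.cardinalMk_le_max.trans ?_
      refine max_le (max_le ?_ ?_) le_rfl
      · exact Cardinal.mk_le_aleph0
      · exact Cardinal.mk_le_aleph0
    rw [h2] at h1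
    exact absurd (h1.trans (max_le h3 le_rfl)) (not_le.2 (aleph0_lt_padicInt p))
  obtain ⟨n, ⟨e⟩⟩ := Finite.exists_equiv_fin ι
  let f : ι ↪ κ := (e.toEmbedding.trans Fin.valEmbedding).trans (Infinite.natEmbedding κ)
  exact ⟨x ∘ f, hx.1.comp f f.injective⟩

/-- translation by integers preserves algebraic independence -/
theorem indep_add {A : Type} [CommRing A] (ι : Type) (z : ι → A) (hz : AlgebraicIndependent ℤ z)
    (u : ι → ℤ) : AlgebraicIndependent ℤ fun i => z i + (u i : A) := by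
  rw [algebraicIndependent_iff] at hz ⊢
  intro P hP
  set Φ : MvPolynomial ι ℤ →ₐ[ℤ] MvPolynomial ι ℤ := aeval fun i => X i + C (u i) with hΦ
  set Ψ : MvPolynomial ι ℤ →ₐ[ℤ] MvPolynomial ι ℤ := aeval fun i => X i - C (u i) with hΨ
  have h1 : (aeval z).comp Φ = aeval fun i => z i + (u i : A) := by
    apply MvPolynomial.algHom_ext
    intro i
    rw [AlgHom.comp_apply, hΦ, aeval_X, aeval_X, map_add, aeval_X, aeval_C]
    rfl
  have h2 : Ψ.comp Φ = AlgHom.id ℤ _ := by
    apply MvPolynomial.algHom_ext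
    intro i
    rw [AlgHom.comp_apply, hΦ, aeval_X, map_add, hΨ, aeval_X, aeval_C, AlgHom.id_apply,
      MvPolynomial.algebraMap_eq, sub_add_cancel]
  have h3 : aeval z (Φ P) = 0 := by
    have := AlgHom.congr_fun h1 P
    rw [AlgHom.comp_apply] at this
    rw [this]
    exact hP
  have h4 := AlgHom.congr_fun h2 P
  rw [AlgHom.comp_apply, hz _ h3, map_zero] at h4
  exact h4.symm

/-- algebraically independent `p`-adic integers with given residues -/
theorem exists_indep_res (p : ℕ) [Fact p.Prime] (ι : Type) [Finite ι] (w : ι → ℤ) :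
    ∃ y : ι → ℤ_[p], AlgebraicIndependent ℤ y ∧ ∀ P : MvPolynomial ι ℤ,
      ¬ (p : ℤ) ∣ eval w P → IsUnit (aeval y P) := by
  obtain ⟨z, hz⟩ := exists_indep p ι
  set u : ι → ℤ := fun i => w i - ((PadicInt.toZMod (z i)).val : ℤ) with hu
  refine ⟨fun i => z i + (u i : ℤ_[p]), indep_add ι z hz u, fun P hP => ?_⟩
  by_contra hcon
  have h1 : aeval (fun i => z i + (u i : ℤ_[p])) P ∈ IsLocalRing.maximalIdeal ℤ_[p] :=
    (IsLocalRing.mem_maximalIdeal _).2 hcon
  rw [← PadicInt.ker_toZMod, RingHom.mem_ker] at h1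
  have h2 : ((PadicInt.toZMod : ℤ_[p] →+* ZMod p).comp
      (aeval (fun i => z i + (u i : ℤ_[p])) : MvPolynomial ι ℤ →ₐ[ℤ] ℤ_[p]).toRingHom) =
      (Int.castRingHom (ZMod p)).comp (eval w) := by
    apply MvPolynomial.ringHom_ext
    · intro r
      simp
    · intro i
      have h3 : (((PadicInt.toZMod (z i)).val : ℕ) : ZMod p) = PadicInt.toZMod (z i) :=
        ZMod.natCast_zmod_val _
      simp only [AlgHom.toRingHom_eq_coe, RingHom.coe_comp, RingHom.coe_coe, Function.comp_apply,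
        aeval_X, map_add, map_intCast, eval_X, eq_intCast, hu]
      push_cast
      rw [h3]
      ring
  have h3 := RingHom.congr_fun h2 P
  have h4 : (((eval w P : ℤ)) : ZMod p) = 0 := by
    rw [← h1]
    exact h3.symm
  exact hP ((ZMod.intCast_zmod_eq_zero_iff_dvd _ _).1 h4)

/-- roots of polynomials with integral coefficients and units as extremal coefficients -/
theorem norm_root {K : Type} [NormedField K] [IsUltrametricDist K] (Q : Polynomial K) (x : K)
    (hx : Q.eval x = 0) (hc : ∀ i, ‖Q.coeff i‖ ≤ 1) (hl : ‖Q.leadingCoeff‖ = 1)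
    (h0 : ‖Q.coeff 0‖ = 1) : ‖x‖ = 1 := by
  rw [Polynomial.eval_eq_sum_range] at hx
  have hn : Q.natDegree ≠ 0 := by
    intro hn
    rw [hn, zero_add, Finset.sum_range_one, pow_zero, mul_one] at hx
    rw [hx, norm_zero] at h0
    exact zero_ne_one h0
  obtain ⟨n, hn⟩ := Nat.exists_eq_succ_of_ne_zero hn
  rcases lt_trichotomy ‖x‖ 1 with h | h | h
  · exfalso
    rw [Finset.sum_range_succ', pow_zero, mul_one] at hx
    have h1 : Q.coeff 0 = -∑ i ∈ Finset.range Q.natDegree, Q.coeff (i + 1) * x ^ (i + 1) := by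
      linear_combination hx
    have h2 : ‖∑ i ∈ Finset.range Q.natDegree, Q.coeff (i + 1) * x ^ (i + 1)‖ ≤ ‖x‖ := by
      refine IsUltrametricDist.norm_sum_le_of_forall_le_of_nonneg (norm_nonneg _) fun i _ => ?_
      rw [norm_mul, norm_pow, pow_succ]
      have h3 := hc (i + 1)
      have h4 : ‖x‖ ^ i ≤ 1 := pow_le_one₀ (norm_nonneg _) h.le
      have h5 := norm_nonneg (Q.coeff (i + 1))
      have h6 : 0 ≤ ‖x‖ ^ i := by positivity
      have h7 : ‖Q.coeff (i + 1)‖ * ‖x‖ ^ i ≤ 1 := mul_le_one₀ h3 h6 h4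
      calc ‖Q.coeff (i + 1)‖ * (‖x‖ ^ i * ‖x‖) = (‖Q.coeff (i + 1)‖ * ‖x‖ ^ i) * ‖x‖ := by ring
        _ ≤ 1 * ‖x‖ := mul_le_mul_of_nonneg_right h7 (norm_nonneg _)
        _ = ‖x‖ := one_mul _
    rw [h1, norm_neg] at h0
    linarith
  · exact h
  · exfalso
    rw [Finset.sum_range_succ] at hx
    have h1 : Q.coeff Q.natDegree * x ^ Q.natDegree =
        -∑ i ∈ Finset.range Q.natDegree, Q.coeff i * x ^ i := by
      linear_combination hx
    have h2 : ‖∑ i ∈ Finset.range Q.natDegree, Q.coeff i * x ^ i‖ ≤ ‖x‖ ^ n := by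
      refine IsUltrametricDist.norm_sum_le_of_forall_le_of_nonneg (by positivity) fun i hi => ?_
      have hi' : i ≤ n := by
        have := Finset.mem_range.1 hi
        omega
      rw [norm_mul, norm_pow]
      calc ‖Q.coeff i‖ * ‖x‖ ^ i ≤ 1 * ‖x‖ ^ i :=
            mul_le_mul_of_nonneg_right (hc i) (by positivity)
        _ = ‖x‖ ^ i := one_mul _
        _ ≤ ‖x‖ ^ n := pow_le_pow_right₀ h.le hi'
    have h3 : ‖Q.coeff Q.natDegree * x ^ Q.natDegree‖ = ‖x‖ ^ (n + 1) := by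
      have h4 : ‖Q.coeff Q.natDegree‖ = 1 := hl
      rw [norm_mul, h4, norm_pow, one_mul, hn]
    rw [h1, norm_neg] at h3
    rw [h3] at h2
    have h5 : ‖x‖ ^ n < ‖x‖ ^ (n + 1) := pow_lt_pow_right₀ h (Nat.lt_succ_self n)
    linarith

/-- places at which given elements are units -/
theorem pf_PLC : T_PLC := by
  classical
  intro k _ _ _ hk s M hs
  obtain ⟨s₀, hs₀⟩ := hk
  have hs₁ : Algebra.IsAlgebraic (Algebra.adjoin ℚ (s₀ : Set k)) k :=
    IntermediateField.isAlgebraic_adjoin_iff_top.1 hs₀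
  obtain ⟨t, hts, ht⟩ := exists_isTranscendenceBasis_subset (R := ℚ) (s₀ : Set k)
  have hfin : Finite t := (s₀.finite_toSet.subset hts).to_subtype
  have hZQ : Algebra.IsAlgebraic ℤ ℚ := by
    refine ⟨fun x => ⟨Polynomial.C (x.den : ℤ) * Polynomial.X - Polynomial.C x.num, ?_, ?_⟩⟩
    · intro h
      have h1 := congrArg (fun P => Polynomial.coeff P 1) h
      simp only [Polynomial.coeff_sub, Polynomial.coeff_C_mul, Polynomial.coeff_X_one, mul_one,
        Polynomial.coeff_C_succ, sub_zero, Polynomial.coeff_zero] at h1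
      exact x.den_ne_zero (by exact_mod_cast h1)
    · rw [map_sub, map_mul, Polynomial.aeval_C, Polynomial.aeval_X, Polynomial.aeval_C]
      have h1 : (x.den : ℚ) * x = x.num := Rat.den_mul_eq_num x
      simp only [algebraMap_int_eq, eq_intCast, Int.cast_natCast]
      rw [h1, sub_self]
  have hb : IsTranscendenceBasis ℤ ((↑) : t → k) :=
    (Algebra.IsAlgebraic.isTranscendenceBasis_iff ℤ ℚ).2 ht
  obtain ⟨R, hR⟩ : ∃ R, R = Algebra.adjoin ℤ (Set.range ((↑) : t → k)) := ⟨_, rfl⟩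
  have halg : Algebra.IsAlgebraic R k := by
    rw [hR]
    exact hb.isAlgebraic
  let e : MvPolynomial t ℤ ≃ₐ[ℤ] R := hb.1.aevalEquiv.trans (Subalgebra.equivOfEq _ _ hR.symm)
  have hq : ∀ a : k, ∃ q : Polynomial R, a ∈ s → q.coeff 0 ≠ 0 ∧ Polynomial.aeval a q = 0 := by
    intro a
    by_cases ha : a ∈ s
    · obtain ⟨q, h1, h2⟩ := (halg.isAlgebraic a).exists_nonzero_coeff_and_aeval_eq_zero
        (mem_nonZeroDivisors_of_ne_zero (hs a ha))
      exact ⟨q, fun _ => ⟨h1, h2⟩⟩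
    · exact ⟨0, fun h => absurd h ha⟩
  choose q hq using hq
  have hlead : ∀ a ∈ s, (q a).leadingCoeff ≠ 0 := by
    intro a ha h
    rw [Polynomial.leadingCoeff_eq_zero] at h
    apply (hq a ha).1
    rw [h, Polynomial.coeff_zero]
  set D : MvPolynomial t ℤ := ∏ a ∈ s, e.symm (q a).leadingCoeff * e.symm ((q a).coeff 0) with hD
  have hD0 : D ≠ 0 := by
    rw [hD, Finset.prod_ne_zero_iff]
    intro a ha
    refine mul_ne_zero ?_ ?_
    · rw [Ne, EmbeddingLike.map_eq_zero_iff]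
      exact hlead a ha
    · rw [Ne, EmbeddingLike.map_eq_zero_iff]
      exact (hq a ha).1
  obtain ⟨w, hw⟩ : ∃ w : t → ℤ, eval w D ≠ 0 := by
    by_contra hcon
    push Not at hcon
    apply hD0
    apply MvPolynomial.funext
    intro w
    rw [hcon w, map_zero]
  obtain ⟨p₀, hp₀, hpp⟩ := Nat.exists_infinite_primes (max M (eval w D).natAbs + 1)
  obtain ⟨p, hp⟩ : ∃ p : Nat.Primes, (p : ℕ) = p₀ := ⟨⟨p₀, hpp⟩, rfl⟩
  rw [← hp] at hp₀
  have hpM : M < (p : ℕ) := by
    have := le_max_left M (eval w D).natAbs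
    omega
  have hpD : ¬ ((p : ℕ) : ℤ) ∣ eval w D := by
    intro h
    have h1 := Nat.le_of_dvd (Int.natAbs_pos.2 hw) (Int.natCast_dvd.1 h)
    have := le_max_right M (eval w D).natAbs
    omega
  obtain ⟨y, hy, hyu⟩ := exists_indep_res (p : ℕ) t w
  -- the embedding
  let θ₀ : R →+* ℤ_[(p : ℕ)] :=
    ((aeval y : MvPolynomial t ℤ →ₐ[ℤ] ℤ_[(p : ℕ)]).comp (e.symm : R →ₐ[ℤ] MvPolynomial t ℤ)).toRingHom
  have hθ₀ : Function.Injective θ₀ := by
    intro a b hab
    have h1 : aeval y (e.symm a) = aeval y (e.symm b) := hab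
    exact e.symm.injective (hy h1)
  let θ : R →+* PadicAlgCl (p : ℕ) :=
    ((algebraMap ℚ_[(p : ℕ)] (PadicAlgCl (p : ℕ))).comp
      (algebraMap ℤ_[(p : ℕ)] ℚ_[(p : ℕ)])).comp θ₀
  have hθ : Function.Injective θ := by
    intro a b hab
    exact hθ₀ (IsFractionRing.injective ℤ_[(p : ℕ)] ℚ_[(p : ℕ)]
      ((algebraMap ℚ_[(p : ℕ)] (PadicAlgCl (p : ℕ))).injective hab))
  have hθn : ∀ r : R, ‖θ r‖ = ‖θ₀ r‖ := by
    intro r
    change ‖((algebraMap ℤ_[(p : ℕ)] ℚ_[(p : ℕ)] (θ₀ r) : ℚ_[(p : ℕ)]) : PadicAlgCl (p : ℕ))‖ = _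
    rw [PadicAlgCl.norm_extends]
    rfl
  let _ : Algebra R (PadicAlgCl (p : ℕ)) := θ.toAlgebra
  have hfaith : FaithfulSMul R (PadicAlgCl (p : ℕ)) :=
    (faithfulSMul_iff_algebraMap_injective _ _).2 hθ
  let σ : k →ₐ[R] PadicAlgCl (p : ℕ) := IsAlgClosed.lift
  refine ⟨⟨p, σ.toRingHom⟩, hpM, fun a ha => ?_⟩
  change ‖σ a‖ = 1
  have hprod : IsUnit (∏ a ∈ s, θ₀ (q a).leadingCoeff * θ₀ ((q a).coeff 0)) := by
    have h1 := hyu D hpD
    rw [hD, map_prod] at h1
    simp only [map_mul] at h1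
    exact h1
  have hfac : IsUnit (θ₀ (q a).leadingCoeff * θ₀ ((q a).coeff 0)) :=
    isUnit_of_dvd_unit (Finset.dvd_prod_of_mem
      (fun a => θ₀ (q a).leadingCoeff * θ₀ ((q a).coeff 0)) ha) hprod
  have hu1 : ‖θ₀ (q a).leadingCoeff‖ = 1 :=
    PadicInt.isUnit_iff.1 (isUnit_of_mul_isUnit_left hfac)
  have hu2 : ‖θ₀ ((q a).coeff 0)‖ = 1 := PadicInt.isUnit_iff.1 (isUnit_of_mul_isUnit_right hfac)
  refine norm_root ((q a).map θ) (σ a) ?_ ?_ ?_ ?_
  · have h1 : Polynomial.aeval (σ a) (q a) = 0 := by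
      rw [Polynomial.aeval_algHom_apply, (hq a ha).2, map_zero]
    rw [Polynomial.eval_map]
    exact h1
  · intro i
    rw [Polynomial.coeff_map, hθn]
    exact PadicInt.norm_le_one _
  · rw [Polynomial.leadingCoeff_map_of_injective hθ, hθn]
    exact hu1
  · rw [Polynomial.coeff_map, hθn]
    exact hu2

end Pool.Agent.H63.VP
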